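import Mathlib

/-!
A maximal eventually different family which stays maximal on many subsets of `ℕ`: definition of the
family and combinatorics.
-/

open Set

namespace Pool.Agent.MED

/-- the code of the base `b` and of the first `n` values of `f` -/
def hist (b : ℕ) (f : ℕ → ℕ) : ℕ → ℕ
  | 0 => b
  | n + 1 => Nat.pair (hist b f n) (f n)

/-- remove the last `j` values of a code -/
def tr (s j : ℕ) : ℕ := (fun x : ℕ => x.unpair.1)^[j] s

theorem tr_zero (s : ℕ) : tr s 0 = s := rfl

theorem tr_add (s i j : ℕ) : tr s (i + j) = tr (tr s i) j := by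
  unfold tr
  rw [add_comm, Function.iterate_add_apply]

theorem tr_hist (b : ℕ) (f : ℕ → ℕ) (n j : ℕ) : tr (hist b f (n + j)) j = hist b f n := by
  induction j with
  | zero => rfl
  | succ j ih =>
    rw [show j + 1 = 1 + j by ring, tr_add, show n + (1 + j) = (n + j) + 1 by ring]
    have h1 : tr (hist b f ((n + j) + 1)) 1 = hist b f (n + j) := by
      show ((hist b f ((n + j) + 1))).unpair.1 = _
      rw [hist, Nat.unpair_pair]
    rw [h1, ih]

theorem tr_hist' (b : ℕ) (f : ℕ → ℕ) {n N : ℕ} (h : n ≤ N) :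
    tr (hist b f N) (N - n) = hist b f n := by
  obtain ⟨j, rfl⟩ := Nat.exists_eq_add_of_le h
  rw [Nat.add_sub_cancel_left]
  exact tr_hist b f n j

theorem hist_inj {b b' : ℕ} {f f' : ℕ → ℕ} {n : ℕ} (h : hist b f n = hist b' f' n) :
    b = b' ∧ ∀ i < n, f i = f' i := by
  have key : ∀ i ≤ n, hist b f i = hist b' f' i := by
    intro i hi
    rw [← tr_hist' b f hi, ← tr_hist' b' f' hi, h]
  refine ⟨key 0 (Nat.zero_le n), fun i hi => ?_⟩
  have h1 := key (i + 1) hi
  rw [hist, hist, Nat.pair_eq_pair] at h1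
  exact h1.2

theorem hist_congr {b : ℕ} {f g : ℕ → ℕ} {n : ℕ} (h : ∀ i < n, f i = g i) :
    hist b f n = hist b g n := by
  induction n with
  | zero => rfl
  | succ n ih =>
    rw [hist, hist, ih (fun i hi => h i (Nat.lt_succ_of_lt hi)), h n (Nat.lt_succ_self n)]

/-- every number is a code -/
theorem hist_tr (s n : ℕ) : hist (tr s n) (fun k => (tr s (n - 1 - k)).unpair.2) n = s := by
  have key : ∀ i ≤ n, hist (tr s n) (fun k => (tr s (n - 1 - k)).unpair.2) i = tr s (n - i) := by
    intro i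
    induction i with
    | zero => intro _; rfl
    | succ i ih =>
      intro hi
      rw [hist, ih (by omega)]
      have h1 : n - i = (n - (i + 1)) + 1 := by omega
      have h2 : n - 1 - i = n - (i + 1) := by omega
      rw [h2, h1, tr_add]
      show Nat.pair (tr s (n - (i + 1))).unpair.1 (tr s (n - (i + 1))).unpair.2 = _
      exact Nat.pair_unpair _
  have := key n le_rfl
  rw [Nat.sub_self] at this
  exact this

/-- the number of places below `n` which are assigned to the function `h` -/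
def cnt (h q : ℕ → ℕ) : ℕ → ℕ
  | 0 => 0
  | n + 1 => cnt h q n +
      if h n ≠ 0 ∧ (q n).unpair.1 = Nat.pair (cnt h q n) (hist 0 h (cnt h q n)) then 1 else 0

/-- the place `n` is assigned to the function `h` -/
def inY (h q : ℕ → ℕ) (n : ℕ) : Prop :=
  h n ≠ 0 ∧ (q n).unpair.1 = Nat.pair (cnt h q n) (hist 0 h (cnt h q n))

instance (h q : ℕ → ℕ) : DecidablePred (inY h q) := fun n => by unfold inY; infer_instance

/-- the values of `h` at `j < n` are codes of the same sequence -/
def coh (h q : ℕ → ℕ) (j n : ℕ) : Prop :=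
  tr (h n - 1).unpair.1 (n - j) = (h j - 1).unpair.1 ∧
    (h j - 1).unpair.2 = hist 0 q (j + 1) ∧ (h n - 1).unpair.2 = hist 0 q (n + 1)

instance (h q : ℕ → ℕ) (j n : ℕ) : Decidable (coh h q j n) := by unfold coh; infer_instance

/-- the number of the predecessors of `n` -/
def lev (h q : ℕ → ℕ) (n : ℕ) : ℕ :=
  ((List.range n).filter fun j => decide (inY h q j ∧ coh h q j n)).length

/-- the places where the function of the family with the data `r`, `h` agrees with `h - 1` -/
def inX (r : ℕ) (h q : ℕ → ℕ) (n : ℕ) : Prop :=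
  0 < n ∧ inY h q n ∧ n % 2 = r % 2 ∧ lev h q n = r / 2

instance (r : ℕ) (h q : ℕ → ℕ) : DecidablePred (inX r h q) := fun n => by
  unfold inX; infer_instance

/-- the code of the data -/
def ee (b : ℕ) (h q : ℕ → ℕ) (n : ℕ) : ℕ := Nat.pair (hist b h (n + 1)) (hist 0 q (n + 1))

/-- the functions of the family -/
def G (b : ℕ) (h q : ℕ → ℕ) (n : ℕ) : ℕ :=
  if inX b.unpair.2 h q n then
    if b.unpair.1 = 0 then h n - 1 else ee (Nat.pair (b.unpair.1 - 1) b.unpair.2) h q n
  else ee b h q n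

/-- the family -/
def fam (q : ℕ → ℕ) : Set (ℕ → ℕ) := {y | ∃ b h, y = G b h q}

/-! ### The functions are eventually different -/

theorem ee_finite (q : ℕ → ℕ) {b b' : ℕ} {h h' : ℕ → ℕ} (hne : ¬ (b = b' ∧ h = h')) :
    {n | ee b h q n = ee b' h' q n}.Finite := by
  by_cases hb : b = b'
  · have hh : h ≠ h' := fun e => hne ⟨hb, e⟩
    obtain ⟨d, hd⟩ := Function.ne_iff.mp hh
    refine (Set.finite_lt_nat d).subset ?_
    intro n hn
    by_contra hlt
    have hlt' : d < n + 1 := by
      have : ¬ n < d := hlt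
      omega
    unfold ee at hn
    rw [Set.mem_ofPred_eq, Nat.pair_eq_pair] at hn
    exact hd ((hist_inj hn.1).2 d hlt')
  · convert Set.finite_empty
    ext n
    simp only [Set.mem_ofPred_eq, mem_empty_iff_false, iff_false]
    intro hn
    unfold ee at hn
    rw [Nat.pair_eq_pair] at hn
    exact hb (hist_inj hn.1).1

theorem cnt_le_succ (h q : ℕ → ℕ) (n : ℕ) : cnt h q n ≤ cnt h q (n + 1) := by
  rw [cnt]; omega

theorem cnt_mono (h q : ℕ → ℕ) : Monotone (cnt h q) := monotone_nat_of_le_succ (cnt_le_succ h q)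

theorem cnt_succ_of_inY {h q : ℕ → ℕ} {n : ℕ} (hn : inY h q n) :
    cnt h q (n + 1) = cnt h q n + 1 := by
  rw [cnt]
  have h1 : h n ≠ 0 ∧ (q n).unpair.1 = Nat.pair (cnt h q n) (hist 0 h (cnt h q n)) := hn
  rw [if_pos h1]

theorem cnt_injOn (h q : ℕ → ℕ) : Set.InjOn (cnt h q) {n | inY h q n} := by
  intro a ha b hb hab
  rcases lt_trichotomy a b with hlt | heq | hlt
  · have h1 := cnt_mono h q (show a + 1 ≤ b from hlt)
    rw [cnt_succ_of_inY ha] at h1
    omega
  · exact heq
  · have h1 := cnt_mono h q (show b + 1 ≤ a from hlt)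
    rw [cnt_succ_of_inY hb] at h1
    omega

theorem inY_finite (q : ℕ → ℕ) {h h' : ℕ → ℕ} (hne : h ≠ h') :
    {n | inY h q n ∧ inY h' q n}.Finite := by
  obtain ⟨d, hd⟩ := Function.ne_iff.mp hne
  apply Set.Finite.of_injOn (f := cnt h q) (t := Set.Iic d)
  · intro n hn
    obtain ⟨h1, h2⟩ := hn
    have e := h1.2.symm.trans h2.2
    rw [Nat.pair_eq_pair] at e
    rw [Set.mem_Iic]
    by_contra hlt
    push Not at hlt
    have e2 := e.2
    rw [← e.1] at e2
    exact hd ((hist_inj e2).2 d hlt)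
  · intro a ha b hb hab
    exact cnt_injOn h q ha.1 hb.1 hab
  · exact Set.finite_Iic d

theorem coh_trans {h q : ℕ → ℕ} {i j n : ℕ} (hij : i ≤ j) (hjn : j ≤ n) (h1 : coh h q i j)
    (h2 : coh h q j n) : coh h q i n := by
  refine ⟨?_, h1.2.1, h2.2.2⟩
  have e : n - i = (n - j) + (j - i) := by omega
  rw [e, tr_add, h2.1, h1.1]

theorem coh_chain {h q : ℕ → ℕ} {i j n : ℕ} (hij : i ≤ j) (hjn : j ≤ n) (h1 : coh h q i n)
    (h2 : coh h q j n) : coh h q i j := by
  refine ⟨?_, h1.2.1, h2.2.1⟩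
  rw [← h2.1, ← tr_add]
  have e : (n - j) + (j - i) = n - i := by omega
  rw [e]
  exact h1.1

theorem coh_of_ee {h q : ℕ → ℕ} {b' : ℕ} {h' : ℕ → ℕ} {j n : ℕ} (hjn : j ≤ n)
    (h1 : h j - 1 = ee b' h' q j) (h2 : h n - 1 = ee b' h' q n) : coh h q j n := by
  unfold coh
  rw [h1, h2]
  unfold ee
  rw [Nat.unpair_pair, Nat.unpair_pair]
  refine ⟨?_, rfl, rfl⟩
  have e : n - j = (n + 1) - (j + 1) := by omega
  simp only
  rw [e]
  exact tr_hist' b' h' (by omega)

/-- the predecessors as a finite set -/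
def pred (h q : ℕ → ℕ) (n : ℕ) : Finset ℕ :=
  (Finset.range n).filter fun j => inY h q j ∧ coh h q j n

theorem lev_eq (h q : ℕ → ℕ) (n : ℕ) : lev h q n = (pred h q n).card := rfl

theorem mem_pred {h q : ℕ → ℕ} {n j : ℕ} :
    j ∈ pred h q n ↔ j < n ∧ inY h q j ∧ coh h q j n := by
  unfold pred
  rw [Finset.mem_filter, Finset.mem_range]

theorem lev_lt {h q : ℕ → ℕ} {j n : ℕ} (hjn : j < n) (hj : inY h q j) (hc : coh h q j n) :
    lev h q j < lev h q n := by
  rw [lev_eq, lev_eq]
  apply Finset.card_lt_card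
  rw [Finset.ssubset_iff_of_subset]
  · refine ⟨j, mem_pred.mpr ⟨hjn, hj, hc⟩, fun hm => ?_⟩
    exact lt_irrefl j (mem_pred.mp hm).1
  · intro i hi
    obtain ⟨h1, h2, h3⟩ := mem_pred.mp hi
    exact mem_pred.mpr ⟨h1.trans hjn, h2, coh_trans h1.le hjn.le h3 hc⟩

theorem inX_ee_finite (q : ℕ → ℕ) (r : ℕ) (h : ℕ → ℕ) (b' : ℕ) (h' : ℕ → ℕ) :
    {n | inX r h q n ∧ h n - 1 = ee b' h' q n}.Finite := by
  apply Set.Subsingleton.finite
  have key : ∀ a b : ℕ, a < b → (inX r h q a ∧ h a - 1 = ee b' h' q a) →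
      (inX r h q b ∧ h b - 1 = ee b' h' q b) → False := by
    intro a b hab ha hb
    have h1 := lev_lt hab ha.1.2.1 (coh_of_ee hab.le ha.2 hb.2)
    rw [ha.1.2.2.2, hb.1.2.2.2] at h1
    exact lt_irrefl _ h1
  intro a ha b hb
  rcases lt_trichotomy a b with hlt | heq | hlt
  · exact (key a b hlt ha hb).elim
  · exact heq
  · exact (key b a hlt hb ha).elim

theorem G_finite (q : ℕ → ℕ) {b b' : ℕ} {h h' : ℕ → ℕ} (hne : ¬ (b = b' ∧ h = h')) :
    {n | G b h q n = G b' h' q n}.Finite := by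
  -- the finite exceptional sets
  set dn : ℕ → ℕ := fun b => Nat.pair (b.unpair.1 - 1) b.unpair.2 with hdn
  have F : ∀ (β β' : ℕ), ({n | ee β h q n = ee β' h' q n ∧ ¬ (β = β' ∧ h = h')} : Set ℕ).Finite := by
    intro β β'
    by_cases hc : β = β' ∧ h = h'
    · convert Set.finite_empty
      ext n
      simp [hc]
    · exact (ee_finite q hc).subset fun n hn => hn.1
  have F4 : ({n | (inY h q n ∧ inY h' q n) ∧ h ≠ h'} : Set ℕ).Finite := by
    by_cases hc : h = h'
    · convert Set.finite_empty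
      ext n
      simp [hc]
    · exact (inY_finite q hc).subset fun n hn => hn.1
  have S1 := inX_ee_finite q b.unpair.2 h b' h'
  have S2 := inX_ee_finite q b.unpair.2 h (dn b') h'
  have S3 := inX_ee_finite q b'.unpair.2 h' b h
  have S4 := inX_ee_finite q b'.unpair.2 h' (dn b) h
  refine ((((((((F b b').union (F (dn b) b')).union (F b (dn b'))).union
    (F (dn b) (dn b'))).union F4).union S1).union S2).union (S3.union S4)).subset ?_
  intro n hn
  rw [Set.mem_ofPred_eq] at hn
  unfold G at hn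
  simp only [mem_union, Set.mem_ofPred_eq]
  by_cases hX : inX b.unpair.2 h q n <;> by_cases hX' : inX b'.unpair.2 h' q n
  · rw [if_pos hX, if_pos hX'] at hn
    by_cases hh : h = h'
    · subst hh
      have hr : b.unpair.2 = b'.unpair.2 := by
        have e1 := hX.2.2.1.symm.trans hX'.2.2.1
        have e2 := hX.2.2.2.symm.trans hX'.2.2.2
        omega
      have hdd : b.unpair.1 ≠ 0 → b'.unpair.1 ≠ 0 → ¬ dn b = dn b' := by
        intro g1 g2 hd
        simp only [hdn, Nat.pair_eq_pair] at hd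
        apply hne
        refine ⟨?_, rfl⟩
        rw [← Nat.pair_unpair b, ← Nat.pair_unpair b', hr, show b.unpair.1 = b'.unpair.1 by omega]
      by_cases ht : b.unpair.1 = 0 <;> by_cases ht' : b'.unpair.1 = 0
      · exfalso
        apply hne
        refine ⟨?_, rfl⟩
        rw [← Nat.pair_unpair b, ← Nat.pair_unpair b', hr, ht, ht']
      · rw [if_pos ht, if_neg ht'] at hn
        left; right
        exact ⟨hX, hn⟩
      · rw [if_neg ht, if_pos ht'] at hn
        right; right
        exact ⟨hX', hn.symm⟩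
      · rw [if_neg ht, if_neg ht'] at hn
        left; left; left; left; right
        exact ⟨hn, fun hc => hdd ht ht' hc.1⟩
    · left; left; left; right
      exact ⟨⟨hX.2.1, hX'.2.1⟩, hh⟩
  · rw [if_pos hX, if_neg hX'] at hn
    by_cases ht : b.unpair.1 = 0
    · rw [if_pos ht] at hn
      left; left; right
      exact ⟨hX, hn⟩
    · rw [if_neg ht] at hn
      left; left; left; left; left; left; right
      refine ⟨hn, fun hc => hX' ?_⟩
      obtain ⟨h1, h2⟩ := hc
      rw [← h1, ← h2]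
      simp only [hdn, Nat.unpair_pair]
      exact hX
  · rw [if_neg hX, if_pos hX'] at hn
    by_cases ht : b'.unpair.1 = 0
    · rw [if_pos ht] at hn
      right; left
      exact ⟨hX', hn.symm⟩
    · rw [if_neg ht] at hn
      left; left; left; left; left; right
      refine ⟨hn, fun hc => hX ?_⟩
      obtain ⟨h1, h2⟩ := hc
      rw [h1, h2]
      simp only [hdn, Nat.unpair_pair]
      exact hX'
  · rw [if_neg hX, if_neg hX'] at hn
    left; left; left; left; left; left; left
    exact ⟨hn, hne⟩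

theorem fam_ed (q : ℕ → ℕ) {y y' : ℕ → ℕ} (hy : y ∈ fam q) (hy' : y' ∈ fam q) (hne : y ≠ y') :
    {n | y n = y' n}.Finite := by
  obtain ⟨b, h, rfl⟩ := hy
  obtain ⟨b', h', rfl⟩ := hy'
  apply G_finite
  rintro ⟨rfl, rfl⟩
  exact hne rfl

/-! ### Maximality -/

theorem inY_infinite {h q : ℕ → ℕ} (hq : ∀ m, {n | h n ≠ 0 ∧ (q n).unpair.1 = m}.Infinite) :
    {n | inY h q n}.Infinite := by
  intro hfin
  obtain ⟨N, hN⟩ := hfin.bddAbove
  have hcon : ∀ n, N < n → cnt h q n = cnt h q (N + 1) := by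
    intro n hn
    induction n with
    | zero => omega
    | succ n ih =>
      rcases Nat.lt_or_ge N n with hlt | hge
      · have hno : ¬ (h n ≠ 0 ∧ (q n).unpair.1 = Nat.pair (cnt h q n) (hist 0 h (cnt h q n))) := by
          intro hy
          have := hN (show n ∈ {n | inY h q n} from hy)
          omega
        rw [cnt, if_neg hno, ih hlt, add_zero]
      · have : n = N := by omega
        rw [this]
  obtain ⟨n, hn, hlt⟩ := (hq (Nat.pair (cnt h q (N + 1)) (hist 0 h (cnt h q (N + 1))))).exists_gt N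
  have hy : inY h q n := by
    refine ⟨hn.1, ?_⟩
    rw [hcon n hlt]
    exact hn.2
  have := hN (show n ∈ {n | inY h q n} from hy)
  omega

/-- the successors of `j` -/
def suc (h q : ℕ → ℕ) (j : ℕ) : Set ℕ := {n | inY h q n ∧ j < n ∧ coh h q j n}

theorem exists_min_pred {h q : ℕ → ℕ} (S : Set ℕ) {n : ℕ} (hn : n ∈ S) (hnY : inY h q n) :
    ∃ j ∈ S, inY h q j ∧ (j = n ∨ j < n ∧ coh h q j n) ∧
      ∀ i ∈ S, i < j → inY h q i → ¬ coh h q i j := by
  classical
  have hex : ∃ j, j ∈ S ∧ inY h q j ∧ (j = n ∨ j < n ∧ coh h q j n) := ⟨n, hn, hnY, Or.inl rfl⟩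
  refine ⟨Nat.find hex, (Nat.find_spec hex).1, (Nat.find_spec hex).2.1, (Nat.find_spec hex).2.2, ?_⟩
  intro i hiS hij hiY hc
  refine Nat.find_min hex hij ⟨hiS, hiY, Or.inr ?_⟩
  rcases (Nat.find_spec hex).2.2 with h1 | ⟨h1, h2⟩
  · rw [h1] at hij hc
    exact ⟨hij, hc⟩
  · exact ⟨hij.trans h1, coh_trans hij.le h1.le hc h2⟩

theorem exists_good {h q : ℕ → ℕ} (hY : {n | inY h q n}.Infinite)
    (hlev : {n | inY h q n ∧ lev h q n = 0}.Finite) :
    ∃ j, inY h q j ∧ (suc h q j).Infinite := by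
  by_contra hno
  push Not at hno
  apply hY
  refine (hlev.biUnion (t := fun j => {j} ∪ suc h q j) ?_).subset ?_
  · intro j hj
    exact (Set.finite_singleton j).union (hno j hj.1)
  · intro n hn
    obtain ⟨j, -, hjY, hjn, hmin⟩ := exists_min_pred (S := Set.univ) (Set.mem_univ n) hn
    rw [Set.mem_iUnion₂]
    refine ⟨j, ⟨hjY, ?_⟩, ?_⟩
    · rw [lev_eq, Finset.card_eq_zero]
      apply Finset.eq_empty_of_forall_notMem
      intro i hi
      obtain ⟨h1, h2, h3⟩ := mem_pred.mp hi
      exact hmin i (Set.mem_univ i) h1 h2 h3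
    · rcases hjn with rfl | ⟨h1, h2⟩
      · left; rfl
      · right; exact ⟨hn, h1, h2⟩

theorem good_step {h q : ℕ → ℕ} {j : ℕ} (hj : inY h q j) (hs : (suc h q j).Infinite)
    (hlev : {n | inY h q n ∧ lev h q n = lev h q j + 1}.Finite) :
    ∃ j', j < j' ∧ coh h q j j' ∧ inY h q j' ∧ (suc h q j').Infinite := by
  by_contra hno
  push Not at hno
  apply hs
  refine ((hlev.inter_of_left (suc h q j)).biUnion (t := fun j => {j} ∪ suc h q j) ?_).subset ?_
  · intro i hi
    exact (Set.finite_singleton i).union (hno i hi.2.2.1 hi.2.2.2 hi.1.1)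
  · intro n hn
    obtain ⟨i, hiS, hiY, hin, hmin⟩ := exists_min_pred (S := suc h q j) hn hn.1
    rw [Set.mem_iUnion₂]
    refine ⟨i, ⟨⟨hiY, ?_⟩, hiS⟩, ?_⟩
    · have hji : j < i := hiS.2.1
      have hcji : coh h q j i := hiS.2.2
      have hp : pred h q i = insert j (pred h q j) := by
        ext l
        rw [Finset.mem_insert, mem_pred, mem_pred]
        constructor
        · rintro ⟨h1, h2, h3⟩
          rcases lt_trichotomy l j with hlt | heq | hgt
          · exact Or.inr ⟨hlt, h2, coh_chain hlt.le hji.le h3 hcji⟩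
          · exact Or.inl heq
          · exfalso
            exact hmin l ⟨h2, hgt, coh_chain hgt.le h1.le hcji h3⟩ h1 h2 h3
        · rintro (rfl | ⟨h1, h2, h3⟩)
          · exact ⟨hji, hj, hcji⟩
          · exact ⟨h1.trans hji, h2, coh_trans h1.le hji.le h3 hcji⟩
      rw [lev_eq, lev_eq, hp, Finset.card_insert_of_notMem]
      intro hm
      exact lt_irrefl j (mem_pred.mp hm).1
    · rcases hin with rfl | ⟨h1, h2⟩
      · left; rfl
      · right; exact ⟨hn.1, h1, h2⟩

theorem exists_chain {h q : ℕ → ℕ} (hY : {n | inY h q n}.Infinite)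
    (hlev : ∀ k, {n | inY h q n ∧ lev h q n = k}.Finite) :
    ∃ a : ℕ → ℕ, StrictMono a ∧ (∀ i, inY h q (a i)) ∧ ∀ i j, i ≤ j → coh h q (a i) (a j) := by
  classical
  obtain ⟨j₀, hj₀⟩ := exists_good hY (hlev 0)
  have hstep : ∀ x : {j // inY h q j ∧ (suc h q j).Infinite},
      ∃ y : {j // inY h q j ∧ (suc h q j).Infinite}, x.1 < y.1 ∧ coh h q x.1 y.1 := by
    intro x
    obtain ⟨j', h1, h2, h3, h4⟩ := good_step x.2.1 x.2.2 (hlev _)
    exact ⟨⟨j', h3, h4⟩, h1, h2⟩
  choose f hf using hstep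
  set a : ℕ → {j // inY h q j ∧ (suc h q j).Infinite} := fun n => f^[n] ⟨j₀, hj₀⟩ with ha
  have hsucc : ∀ n, a (n + 1) = f (a n) := by
    intro n
    simp only [ha]
    rw [Function.iterate_succ_apply']
  have hmono : StrictMono fun n => (a n).1 := by
    apply strictMono_nat_of_lt_succ
    intro n
    rw [hsucc]
    exact (hf (a n)).1
  refine ⟨fun n => (a n).1, hmono, fun i => (a i).2.1, ?_⟩
  intro i j hij
  induction j, hij using Nat.le_induction with
  | base =>
    obtain ⟨h1, h2, h3⟩ := (hf (a i)).2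
    refine ⟨?_, h2, h2⟩
    rw [Nat.sub_self]
    rfl
  | succ j hij ih =>
    have h1 : coh h q (a j).1 (a (j + 1)).1 := by
      rw [hsucc]
      exact (hf (a j)).2
    exact coh_trans (hmono.monotone hij) (hmono.monotone (Nat.le_succ j)) ih h1

theorem chain_eq {h q : ℕ → ℕ} {a : ℕ → ℕ} (ha : StrictMono a)
    (hc : ∀ i j, i ≤ j → coh h q (a i) (a j)) :
    ∃ (b' : ℕ) (h' : ℕ → ℕ), ∀ i, h (a i) - 1 = ee b' h' q (a i) := by
  set S : ℕ → ℕ := fun i => (h (a i) - 1).unpair.1 with hS
  have hle : ∀ k, k ≤ a k := fun k => ha.le_apply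
  refine ⟨tr (S 0) (a 0 + 1), fun k => (tr (S k) (a k - k)).unpair.2, ?_⟩
  intro i
  have hval : ∀ k, k ≤ a i → (tr (S i) (a i - k)).unpair.2 = (tr (S k) (a k - k)).unpair.2 := by
    intro k hk
    rcases le_total i k with hik | hki
    · have h1 := (hc i k hik).1
      have h2 : a i ≤ a k := ha.monotone hik
      show (tr (S i) (a i - k)).unpair.2 = _
      have h3 : tr (S k) (a k - a i) = S i := h1
      rw [← h3, ← tr_add]
      congr 3
      omega
    · have h1 := (hc k i hki).1
      have h2 : a k ≤ a i := ha.monotone hki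
      have h3 : tr (S i) (a i - a k) = S k := h1
      rw [← h3, ← tr_add]
      congr 3
      have := hle k
      omega
  have hbase : tr (S i) (a i + 1) = tr (S 0) (a 0 + 1) := by
    have h1 := (hc 0 i (Nat.zero_le i)).1
    have h2 : a 0 ≤ a i := ha.monotone (Nat.zero_le i)
    have h3 : tr (S i) (a i - a 0) = S 0 := h1
    rw [← h3, ← tr_add]
    congr 1
    omega
  have h1 := hist_tr (S i) (a i + 1)
  rw [hbase] at h1
  have h2 : hist (tr (S 0) (a 0 + 1)) (fun k => (tr (S i) (a i + 1 - 1 - k)).unpair.2) (a i + 1) =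
      hist (tr (S 0) (a 0 + 1)) (fun k => (tr (S k) (a k - k)).unpair.2) (a i + 1) := by
    apply hist_congr
    intro k hk
    rw [Nat.add_sub_cancel]
    exact hval k (Nat.lt_succ_iff.mp hk)
  unfold ee
  rw [← h2, h1, ← (hc i i le_rfl).2.1]
  exact (Nat.pair_unpair _).symm

/-- **Maximality.** If `q` takes every value infinitely often on `A` then every function agrees
infinitely often on `A` with a function of the family. -/
theorem fam_max {q : ℕ → ℕ} {A : Set ℕ} (hA : ∀ m, {n ∈ A | (q n).unpair.1 = m}.Infinite) (f : ℕ → ℕ) :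
    ∃ g ∈ fam q, {n ∈ A | f n = g n}.Infinite := by
  classical
  set h : ℕ → ℕ := fun n => if n ∈ A then f n + 1 else 0 with hh
  have hA' : ∀ n, h n ≠ 0 → n ∈ A := by
    intro n hn
    by_contra hc
    simp [hh, hc] at hn
  have hf : ∀ n, n ∈ A → h n - 1 = f n := by
    intro n hn
    simp [hh, hn]
  have hY : {n | inY h q n}.Infinite := by
    apply inY_infinite
    intro m
    refine (hA m).mono ?_
    rintro n ⟨h1, h2⟩
    refine ⟨?_, h2⟩
    simp [hh, h1]
  by_cases hlev : ∀ k, {n | inY h q n ∧ lev h q n = k}.Finite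
  · obtain ⟨a, ha, haY, hac⟩ := exists_chain hY hlev
    obtain ⟨b', h', he⟩ := chain_eq ha hac
    have hinf : {n | inY h q n ∧ h n - 1 = ee b' h' q n}.Infinite := by
      refine (Set.infinite_range_of_injective ha.injective).mono ?_
      rintro n ⟨i, rfl⟩
      exact ⟨haY i, he i⟩
    by_cases hX : {n | (inY h q n ∧ h n - 1 = ee b' h' q n) ∧ ¬ inX b'.unpair.2 h' q n}.Infinite
    · refine ⟨G b' h' q, ⟨b', h', rfl⟩, hX.mono ?_⟩
      rintro n ⟨⟨h1, h2⟩, h3⟩
      have hnA := hA' n h1.1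
      refine ⟨hnA, ?_⟩
      rw [← hf n hnA, h2]
      unfold G
      rw [if_neg h3]
    · rw [Set.not_infinite] at hX
      have hX2 := hinf.sdiff hX
      refine ⟨G (Nat.pair (b'.unpair.1 + 1) b'.unpair.2) h' q, ⟨_, h', rfl⟩, hX2.mono ?_⟩
      rintro n ⟨⟨h1, h2⟩, h3⟩
      have hnA := hA' n h1.1
      refine ⟨hnA, ?_⟩
      have h4 : inX b'.unpair.2 h' q n := by
        by_contra hc
        exact h3 ⟨⟨h1, h2⟩, hc⟩
      rw [← hf n hnA, h2]
      unfold G
      rw [Nat.unpair_pair]
      simp only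
      rw [if_pos h4, if_neg (Nat.succ_ne_zero _), Nat.add_sub_cancel, Nat.pair_unpair]
  · push Not at hlev
    obtain ⟨k, hk⟩ := hlev
    have hk' : {n | inY h q n ∧ lev h q n = k}.Infinite := hk
    obtain ⟨r, hr⟩ : ∃ r, {n | inX r h q n}.Infinite := by
      by_contra hno
      push Not at hno
      apply hk'
      have h0 := hno (2 * k)
      have h1 := hno (2 * k + 1)
      refine (((Set.finite_singleton 0).union h0).union h1).subset ?_
      rintro n ⟨h2, h3⟩
      rcases Nat.eq_zero_or_pos n with hn | hn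
      · left; left; exact hn
      · rcases Nat.mod_two_eq_zero_or_one n with hm | hm
        · left; right
          exact ⟨hn, h2, by omega, by omega⟩
        · right
          exact ⟨hn, h2, by omega, by omega⟩
    refine ⟨G (Nat.pair 0 r) h q, ⟨_, h, rfl⟩, hr.mono ?_⟩
    intro n hn
    have hn' : inX r h q n := hn
    have hnA := hA' n hn'.2.1.1
    refine ⟨hnA, ?_⟩
    unfold G
    rw [Nat.unpair_pair]
    simp only
    rw [if_pos hn', if_pos trivial, hf n hnA]

end Pool.Agent.MED
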