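import Pool.Agent.MED.Sing

/-!
Almost every set, in the sense of measure and category, meets every member of an infinite partition
into infinite sets infinitely often. Further examples of functions.
-/

open Set MeasureTheory Filter Topology

namespace Pool.Agent.MED

/-- the measure on `ℕ → Bool` given by independent fair coins -/
noncomputable def coin : Measure (ℕ → Bool) :=
  Measure.infinitePi fun _ => (PMF.uniformOfFintype Bool).toMeasure

theorem coin_pi (F : Finset ℕ) :
    coin ((F : Set ℕ).pi fun _ => {false}) = (2⁻¹ : ENNReal) ^ F.card := by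
  unfold coin
  rw [Measure.infinitePi_pi _ (fun _ _ => MeasurableSet.singleton _)]
  rw [Finset.prod_congr rfl (g := fun _ => (2⁻¹ : ENNReal)), Finset.prod_const]
  intro i _
  rw [PMF.toMeasure_uniformOfFintype_apply _ (MeasurableSet.singleton _)]
  simp

theorem infinite_of_gt {S : Set ℕ} (h : ∀ N : ℕ, ∃ n ∈ S, N < n) : S.Infinite :=
  Set.infinite_of_forall_exists_gt h

theorem ae_values {p : ℕ → ℕ} (hp : ∀ m, {n | p n = m}.Infinite) :
    ∀ᵐ a ∂coin, ∀ m, {n ∈ {n | a n = true} | p n = m}.Infinite := by
  rw [ae_all_iff]
  intro m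
  have key : ∀ᵐ a ∂coin, ∀ N : ℕ, ∃ n, (a n = true ∧ p n = m) ∧ N < n := by
    rw [ae_all_iff]
    intro N
    have h0 : coin {a : ℕ → Bool | ∀ n, N < n → p n = m → a n = false} = 0 := by
      have hT : {n | N < n ∧ p n = m}.Infinite := by
        intro hfin
        apply hp m
        refine ((Set.finite_le_nat N).union hfin).subset ?_
        intro n hn
        rcases Nat.lt_or_ge N n with h | h
        · exact Or.inr ⟨h, hn⟩
        · exact Or.inl h
      have hle : ∀ k : ℕ, coin {a : ℕ → Bool | ∀ n, N < n → p n = m → a n = false} ≤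
          (2⁻¹ : ENNReal) ^ k := by
        intro k
        obtain ⟨F, hF, hcard⟩ := hT.exists_subset_card_eq k
        rw [← hcard, ← coin_pi F]
        apply measure_mono
        intro a ha n hn
        obtain ⟨h1, h2⟩ := hF hn
        exact ha n h1 h2
      have hlim : Tendsto (fun k : ℕ => (2⁻¹ : ENNReal) ^ k) atTop (𝓝 0) :=
        ENNReal.tendsto_pow_atTop_nhds_zero_of_lt_one (by
          rw [ENNReal.inv_lt_one]
          exact ENNReal.one_lt_two)
      exact le_antisymm (ge_of_tendsto' hlim hle) zero_le
    rw [ae_iff]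
    refine measure_mono_null ?_ h0
    intro a ha n hn hpn
    by_contra hc
    apply ha
    refine ⟨n, ⟨?_, hpn⟩, hn⟩
    cases h : a n
    · exact (hc h).elim
    · rfl
  filter_upwards [key] with a ha
  apply infinite_of_gt
  intro N
  obtain ⟨n, h1, h2⟩ := ha N
  exact ⟨n, h1, h2⟩

theorem residual_values {p : ℕ → ℕ} (hp : ∀ m, {n | p n = m}.Infinite) :
    ∀ᶠ a in residual (ℕ → Bool), ∀ m, {n ∈ {n | a n = true} | p n = m}.Infinite := by
  rw [eventually_countable_forall]
  intro m
  have key : ∀ᶠ a in residual (ℕ → Bool), ∀ N : ℕ, ∃ n, (a n = true ∧ p n = m) ∧ N < n := by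
    rw [eventually_countable_forall]
    intro N
    apply residual_of_dense_open
    · have e : {a : ℕ → Bool | ∃ n, (a n = true ∧ p n = m) ∧ N < n} =
          ⋃ n ∈ {n | p n = m ∧ N < n}, {a : ℕ → Bool | a n = true} := by
        ext a
        simp only [mem_iUnion, Set.mem_ofPred_eq, exists_prop]
        constructor
        · rintro ⟨n, ⟨h1, h2⟩, h3⟩
          exact ⟨n, ⟨h2, h3⟩, h1⟩
        · rintro ⟨n, ⟨h2, h3⟩, h1⟩
          exact ⟨n, ⟨h1, h2⟩, h3⟩
      show IsOpen {a : ℕ → Bool | ∃ n, (a n = true ∧ p n = m) ∧ N < n}
      rw [e]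
      refine isOpen_biUnion fun n _ => ?_
      have hc : Continuous fun a : ℕ → Bool => a n := continuous_apply n
      exact (isOpen_discrete ({true} : Set Bool)).preimage hc
    · rw [dense_iff_inter_open]
      intro U hU hne
      obtain ⟨a, ha⟩ := hne
      obtain ⟨I, u, hu, hsub⟩ := isOpen_pi_iff.mp hU a ha
      obtain ⟨n, hn1, hn2⟩ : ∃ n, n ∈ {n | p n = m} ∧ n ∉ (I : Set ℕ) ∪ {n | n ≤ N} :=
        (hp m).exists_notMem_finite (I.finite_toSet.union (Set.finite_le_nat N))
      refine ⟨Function.update a n true, hsub ?_, ⟨n, ⟨?_, hn1⟩, ?_⟩⟩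
      · intro i hi
        have hin : i ≠ n := by
          rintro rfl
          exact hn2 (Or.inl hi)
        rw [Function.update_of_ne hin]
        exact (hu i hi).2
      · rw [Function.update_self]
      · by_contra hc
        exact hn2 (Or.inr (not_lt.mp hc))
  filter_upwards [key] with a ha
  apply infinite_of_gt
  intro N
  obtain ⟨n, h1, h2⟩ := ha N
  exact ⟨n, h1, h2⟩

/-! ### Trees with one branch -/

/-- the tree with the only branch `z` -/
def single (z : ℕ → ℕ) : Set (List ℕ) := {s | s = (List.range s.length).map z}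

theorem single_pre (z : ℕ → ℕ) {s t : List ℕ} (h : s <+: t) (ht : t ∈ single z) :
    s ∈ single z := by
  have hl := h.length_le
  have ht' : t = (List.range t.length).map z := ht
  show s = (List.range s.length).map z
  have h1 : s = t.take s.length := by
    obtain ⟨u, hu⟩ := h
    rw [← hu, List.take_left']
    rfl
  conv_lhs => rw [h1, ht']
  rw [← List.map_take, List.take_range, min_eq_left hl]

theorem single_branches (z f : ℕ → ℕ) :
    (∀ n : ℕ, (List.range n).map f ∈ single z) ↔ f = z := by
  constructor
  · intro H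
    funext n
    have h1 : (List.range (n + 1)).map f =
        (List.range ((List.range (n + 1)).map f).length).map z := H (n + 1)
    rw [List.length_map, List.length_range] at h1
    have h2 := List.map_inj_left.mp h1 n (List.mem_range.mpr (Nat.lt_succ_self n))
    exact h2
  · rintro rfl n
    show (List.range n).map f = (List.range ((List.range n).map f).length).map f
    rw [List.length_map, List.length_range]

theorem map_range_computable {z : ℕ → ℕ} (hz : Computable z) :
    Computable fun n : ℕ => (List.range n).map z := by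
  have h1 : Computable₂ fun (_ : ℕ) (p : ℕ × List ℕ) => p.2 ++ [z p.1] :=
    Computable.list_concat.comp (Computable.snd.comp Computable.snd)
      (hz.comp (Computable.fst.comp Computable.snd))
  refine (Computable.nat_rec Computable.id (Computable.const []) h1).of_eq ?_
  intro n
  show (Nat.rec [] (fun y IH => IH ++ [z y]) n : List ℕ) = _
  induction n with
  | zero => rfl
  | succ n ih =>
    rw [List.range_succ, List.map_append, ← ih]
    rfl

/-- for a computable function `z` the set `{z}` is lightface `Π⁰₁` -/
theorem pi01_of_computable {z : ℕ → ℕ} (hz : Computable z) : Pi01 {z} := by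
  refine ⟨single z, ?_, fun s t => single_pre z, ?_⟩
  · have h1 : ComputablePred fun p : List ℕ × List ℕ => p.1 = p.2 :=
      (Primrec.eq : PrimrecRel (@Eq (List ℕ))).computablePred
    exact computable_comp h1 (Computable.pair Computable.id
      ((map_range_computable hz).comp Computable.list_length))
  · ext f
    show f ∈ ({z} : Set (ℕ → ℕ)) ↔ ∀ n : ℕ, (List.range n).map f ∈ single z
    rw [single_branches, Set.mem_singleton_iff]

theorem isClosed_branches (T : Set (List ℕ)) :
    IsClosed {f : ℕ → ℕ | ∀ n : ℕ, (List.range n).map f ∈ T} := by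
  have e : {f : ℕ → ℕ | ∀ n : ℕ, (List.range n).map f ∈ T} =
      ⋂ n : ℕ, {f : ℕ → ℕ | (List.range n).map f ∈ T} := by
    ext f
    simp only [mem_iInter, Set.mem_ofPred_eq]
  rw [e]
  refine isClosed_iInter fun n => ?_
  have hc : Continuous fun (f : ℕ → ℕ) (i : Fin n) => f i :=
    continuous_pi fun i => continuous_apply _
  have e2 : {f : ℕ → ℕ | (List.range n).map f ∈ T} =
      (fun (f : ℕ → ℕ) (i : Fin n) => f i) ⁻¹' {g : Fin n → ℕ | List.ofFn g ∈ T} := by
    ext f
    simp only [Set.mem_ofPred_eq, mem_preimage]
    have : (List.range n).map f = List.ofFn fun i : Fin n => f i := by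
      apply List.ext_getElem
      · simp
      · intro i h1 h2
        simp
    rw [this]
  rw [e2]
  exact (isClosed_discrete _).preimage hc

theorem fam_closed (q : ℕ → ℕ) : IsClosed (fam q) := by
  have e : fam q = {f : ℕ → ℕ | ∀ n : ℕ, (List.range n).map f ∈ tree (single q)} := by
    ext y
    rw [mem_fam_iff]
    show _ ↔ ∀ n : ℕ, (List.range n).map y ∈ tree (single q)
    rw [tree_branches, single_branches]
  rw [e]
  exact isClosed_branches _

end Pool.Agent.MED
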