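import Pool.Agent.MED.Core

/-!
The functions of the family are primitive recursive in their data.
-/

open Set

namespace Pool.Agent.MED

variable {α : Type*} [Primcodable α]

theorem hist_prim {b : α → ℕ} {f : α → ℕ → ℕ} (hb : Primrec b) (hf : Primrec₂ f) :
    Primrec₂ fun a n => hist (b a) (f a) n := by
  have h1 : Primrec₂ fun (a : α) (p : ℕ × ℕ) => Nat.pair p.2 (f a p.1) :=
    Primrec₂.natPair.comp₂ (Primrec.snd.comp₂ Primrec₂.right)
      (hf.comp₂ Primrec₂.left (Primrec.fst.comp₂ Primrec₂.right))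
  refine (Primrec.nat_rec hb h1).of_eq ?_
  intro a n
  induction n with
  | zero => rfl
  | succ n ih => rw [hist, ← ih]

theorem tr_prim : Primrec₂ tr := by
  have h1 : Primrec₂ fun (_ : ℕ × ℕ) (x : ℕ) => x.unpair.1 :=
    (Primrec.fst.comp Primrec.unpair).comp₂ Primrec₂.right
  exact (Primrec.nat_iterate (f := fun p : ℕ × ℕ => p.2) (g := fun p : ℕ × ℕ => p.1)
    (h := fun _ x => x.unpair.1) Primrec.snd Primrec.fst h1)

theorem up1 {f : α → ℕ} (hf : Primrec f) : Primrec fun a => (f a).unpair.1 :=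
  Primrec.fst.comp (Primrec.unpair.comp hf)

theorem up2 {f : α → ℕ} (hf : Primrec f) : Primrec fun a => (f a).unpair.2 :=
  Primrec.snd.comp (Primrec.unpair.comp hf)

theorem cnt_prim {h q : α → ℕ → ℕ} (hh : Primrec₂ h) (hq : Primrec₂ q) :
    Primrec₂ fun a n => cnt (h a) (q a) n := by
  have hH : Primrec₂ fun (a : α) (n : ℕ) => hist 0 (h a) n := hist_prim (Primrec.const 0) hh
  have hp : PrimrecPred fun x : α × (ℕ × ℕ) => h x.1 x.2.1 ≠ 0 ∧
      (q x.1 x.2.1).unpair.1 = Nat.pair x.2.2 (hist 0 (h x.1) x.2.2) := by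
    have e1 : Primrec fun x : α × (ℕ × ℕ) => h x.1 x.2.1 :=
      hh.comp Primrec.fst (Primrec.fst.comp Primrec.snd)
    have e2 : Primrec fun x : α × (ℕ × ℕ) => q x.1 x.2.1 :=
      hq.comp Primrec.fst (Primrec.fst.comp Primrec.snd)
    have e3 : Primrec fun x : α × (ℕ × ℕ) => x.2.2 := Primrec.snd.comp Primrec.snd
    have e4 : Primrec fun x : α × (ℕ × ℕ) => Nat.pair x.2.2 (hist 0 (h x.1) x.2.2) :=
      Primrec₂.natPair.comp e3 (hH.comp Primrec.fst e3)
    exact (Primrec.eq.comp e1 (Primrec.const 0)).not.and (Primrec.eq.comp (up1 e2) e4)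
  have h1 : Primrec₂ fun (a : α) (p : ℕ × ℕ) => p.2 +
      if h a p.1 ≠ 0 ∧ (q a p.1).unpair.1 = Nat.pair p.2 (hist 0 (h a) p.2) then 1 else 0 :=
    Primrec.nat_add.comp (Primrec.snd.comp Primrec.snd)
      (Primrec.ite hp (Primrec.const 1) (Primrec.const 0))
  refine (Primrec.nat_rec (Primrec.const 0) h1).of_eq ?_
  intro a n
  induction n with
  | zero => rfl
  | succ n ih => rw [cnt, ← ih]

theorem inY_prim {h q : α → ℕ → ℕ} (hh : Primrec₂ h) (hq : Primrec₂ q) :
    PrimrecPred fun x : α × ℕ => inY (h x.1) (q x.1) x.2 := by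
  have hC := cnt_prim hh hq
  have hH : Primrec₂ fun (a : α) (n : ℕ) => hist 0 (h a) n := hist_prim (Primrec.const 0) hh
  have e3 : Primrec fun x : α × ℕ => cnt (h x.1) (q x.1) x.2 := hC.comp Primrec.fst Primrec.snd
  exact (Primrec.eq.comp (hh.comp Primrec.fst Primrec.snd) (Primrec.const 0)).not.and
    (Primrec.eq.comp (up1 (hq.comp Primrec.fst Primrec.snd))
      (Primrec₂.natPair.comp e3 (hH.comp Primrec.fst e3)))

theorem coh_prim {h q : α → ℕ → ℕ} (hh : Primrec₂ h) (hq : Primrec₂ q) :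
    PrimrecPred fun x : ℕ × (α × ℕ) => coh (h x.2.1) (q x.2.1) x.1 x.2.2 := by
  have hH : Primrec₂ fun (a : α) (n : ℕ) => hist 0 (q a) n := hist_prim (Primrec.const 0) hq
  have ea : Primrec fun x : ℕ × (α × ℕ) => x.2.1 := Primrec.fst.comp Primrec.snd
  have en : Primrec fun x : ℕ × (α × ℕ) => x.2.2 := Primrec.snd.comp Primrec.snd
  have ej : Primrec fun x : ℕ × (α × ℕ) => x.1 := Primrec.fst
  have un : Primrec fun x : ℕ × (α × ℕ) => h x.2.1 x.2.2 - 1 :=
    Primrec.nat_sub.comp (hh.comp ea en) (Primrec.const 1)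
  have uj : Primrec fun x : ℕ × (α × ℕ) => h x.2.1 x.1 - 1 :=
    Primrec.nat_sub.comp (hh.comp ea ej) (Primrec.const 1)
  have t1 : Primrec fun x : ℕ × (α × ℕ) => tr (h x.2.1 x.2.2 - 1).unpair.1 (x.2.2 - x.1) :=
    tr_prim.comp (up1 un) (Primrec.nat_sub.comp en ej)
  exact (Primrec.eq.comp t1 (up1 uj)).and ((Primrec.eq.comp (up2 uj)
    (hH.comp ea (Primrec.succ.comp ej))).and (Primrec.eq.comp (up2 un)
      (hH.comp ea (Primrec.succ.comp en))))

theorem lev_prim {h q : α → ℕ → ℕ} (hh : Primrec₂ h) (hq : Primrec₂ q) :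
    Primrec₂ fun a n => lev (h a) (q a) n := by
  have hR : PrimrecRel fun (j : ℕ) (x : α × ℕ) => inY (h x.1) (q x.1) j ∧
      coh (h x.1) (q x.1) j x.2 := by
    refine PrimrecPred.and ?_ (coh_prim hh hq)
    exact (inY_prim hh hq).comp
      (Primrec.pair (Primrec.fst.comp Primrec.snd) Primrec.fst :
        Primrec fun x : ℕ × (α × ℕ) => (x.2.1, x.1))
  have h1 := hR.listFilter
  have h2 : Primrec fun x : α × ℕ => (List.range x.2).filter
      fun j => decide (inY (h x.1) (q x.1) j ∧ coh (h x.1) (q x.1) j x.2) :=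
    h1.comp (Primrec.list_range.comp Primrec.snd) Primrec.id
  exact Primrec.list_length.comp h2

theorem inX_prim {r : α → ℕ} {h q : α → ℕ → ℕ} (hr : Primrec r) (hh : Primrec₂ h)
    (hq : Primrec₂ q) : PrimrecPred fun x : α × ℕ => inX (r x.1) (h x.1) (q x.1) x.2 := by
  have er : Primrec fun x : α × ℕ => r x.1 := hr.comp Primrec.fst
  have en : Primrec fun x : α × ℕ => x.2 := Primrec.snd
  refine PrimrecPred.and (Primrec.nat_lt.comp (Primrec.const 0) en) ?_
  refine PrimrecPred.and (inY_prim hh hq) ?_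
  refine PrimrecPred.and ?_ ?_
  · exact Primrec.eq.comp (Primrec.nat_mod.comp en (Primrec.const 2))
      (Primrec.nat_mod.comp er (Primrec.const 2))
  · exact Primrec.eq.comp ((lev_prim hh hq).comp Primrec.fst en)
      (Primrec.nat_div.comp er (Primrec.const 2))

theorem ee_prim {b : α → ℕ} {h q : α → ℕ → ℕ} (hb : Primrec b) (hh : Primrec₂ h)
    (hq : Primrec₂ q) : Primrec₂ fun a n => ee (b a) (h a) (q a) n := by
  have e1 : Primrec fun x : α × ℕ => x.2 + 1 := Primrec.succ.comp Primrec.snd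
  exact Primrec₂.natPair.comp ((hist_prim hb hh).comp Primrec.fst e1)
    ((hist_prim (Primrec.const 0) hq).comp Primrec.fst e1)

theorem G_prim {b : α → ℕ} {h q : α → ℕ → ℕ} (hb : Primrec b) (hh : Primrec₂ h)
    (hq : Primrec₂ q) : Primrec₂ fun a n => G (b a) (h a) (q a) n := by
  have d : Primrec fun a : α => Nat.pair ((b a).unpair.1 - 1) (b a).unpair.2 :=
    Primrec₂.natPair.comp (Primrec.nat_sub.comp (up1 hb) (Primrec.const 1)) (up2 hb)
  refine Primrec.ite (inX_prim (up2 hb) hh hq) ?_ (ee_prim hb hh hq)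
  refine Primrec.ite ?_ ?_ (ee_prim d hh hq)
  · exact Primrec.eq.comp ((up1 hb).comp Primrec.fst) (Primrec.const 0)
  · exact Primrec.nat_sub.comp (hh.comp Primrec.fst Primrec.snd) (Primrec.const 1)

end Pool.Agent.MED
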