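import Pool.Agent.MED.Tree

/-!
A function `zz` such that `{zz}` is a lightface `Π⁰₁` set and the first coordinate of `zz` takes
every value infinitely often on every set which is infinite and not hyperimmune.
-/

open Set Nat.Partrec

namespace Pool.Agent.MED

/-- the computation number `i` at `x` halts with a small value after `y` steps -/
def R (i x y : ℕ) : Prop :=
  (Code.evaln y (Denumerable.ofNat Code i.unpair.2.unpair.1) x).getD (x + y + 1) ≤ x + y

instance (i x : ℕ) : DecidablePred (R i x) := fun y => by unfold R; infer_instance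

theorem not_R_zero (i x : ℕ) : ¬ R i x 0 := by
  unfold R
  simp [Code.evaln]

open Classical in
/-- the least number of steps, or zero -/
noncomputable def V (i x : ℕ) : ℕ := if h : ∃ y, R i x y then Nat.find h else 0

theorem V_spec {i x y : ℕ} (h : R i x y) : R i x (V i x) := by
  classical
  unfold V
  rw [dif_pos ⟨y, h⟩]
  exact Nat.find_spec (⟨y, h⟩ : ∃ y, R i x y)

theorem V_eq_zero {i x : ℕ} (h : ∀ y, ¬ R i x y) : V i x = 0 := by
  unfold V
  rw [dif_neg]
  rintro ⟨y, hy⟩
  exact h y hy

theorem V_eq {i x v : ℕ} (h : R i x v) (hmin : ∀ y < v, ¬ R i x y) : V i x = v := by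
  classical
  unfold V
  rw [dif_pos ⟨v, h⟩]
  rw [Nat.find_eq_iff]
  exact ⟨h, fun n hn => hmin n hn⟩

theorem V_min {i x y : ℕ} (h : y < V i x) : ¬ R i x y := by
  classical
  intro hy
  unfold V at h
  rw [dif_pos ⟨y, hy⟩] at h
  exact Nat.find_min (⟨y, hy⟩ : ∃ y, R i x y) h hy

/-- the states -/
def mk (i x v : ℕ) : ℕ := Nat.pair i.unpair.1 (Nat.pair i (Nat.pair x v))

/-- components of the states -/
def ip (s : ℕ) : ℕ := s.unpair.2.unpair.1

/-- components of the states -/
def xp (s : ℕ) : ℕ := s.unpair.2.unpair.2.unpair.1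

/-- components of the states -/
def vp (s : ℕ) : ℕ := s.unpair.2.unpair.2.unpair.2

theorem ip_mk (i x v : ℕ) : ip (mk i x v) = i := by simp [ip, mk]

theorem xp_mk (i x v : ℕ) : xp (mk i x v) = x := by simp [xp, mk]

theorem vp_mk (i x v : ℕ) : vp (mk i x v) = v := by simp [vp, mk]

/-- the next state -/
def step (n s v : ℕ) : ℕ := if n + 1 ≤ xp s + vp s then s else mk (ip s + 1) (n + 1) v

/-- the function -/
noncomputable def zz : ℕ → ℕ
  | 0 => mk 0 0 (V 0 0)
  | n + 1 => step n (zz n) (V (ip (zz n) + 1) (n + 1))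

theorem zz_inv (n : ℕ) : vp (zz n) = V (ip (zz n)) (xp (zz n)) := by
  induction n with
  | zero => rw [zz, ip_mk, xp_mk, vp_mk]
  | succ n ih =>
    rw [zz]
    unfold step
    split_ifs
    · exact ih
    · rw [ip_mk, xp_mk, vp_mk]

theorem zz_succ (n : ℕ) : zz (n + 1) = step n (zz n) (vp (zz (n + 1))) := by
  have h : zz (n + 1) = step n (zz n) (V (ip (zz n) + 1) (n + 1)) := by rw [zz]
  by_cases hc : n + 1 ≤ xp (zz n) + vp (zz n)
  · unfold step at h ⊢
    rw [if_pos hc] at h ⊢
    exact h
  · have h2 : vp (zz (n + 1)) = V (ip (zz n) + 1) (n + 1) := by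
      rw [h]
      unfold step
      rw [if_neg hc, vp_mk]
    rw [h2]
    exact h

/-- the local check, up to the bound `N` -/
def Good (s N : ℕ) : Prop :=
  (vp s = 0 ∧ ∀ y ∈ List.range N, ¬ R (ip s) (xp s) y) ∨
    (vp s ≠ 0 ∧ R (ip s) (xp s) (vp s) ∧ ∀ y ∈ List.range (vp s), ¬ R (ip s) (xp s) y)

theorem good_mono {s M N : ℕ} (h : M ≤ N) (hg : Good s N) : Good s M := by
  rcases hg with ⟨h1, h2⟩ | h1
  · refine Or.inl ⟨h1, fun y hy => h2 y ?_⟩
    rw [List.mem_range] at hy ⊢
    omega
  · exact Or.inr h1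

theorem good_iff (s : ℕ) (n : ℕ) : (∀ N, n < N → Good s N) ↔ vp s = V (ip s) (xp s) := by
  constructor
  · intro h
    by_cases h0 : vp s = 0
    · have h1 : ∀ y, ¬ R (ip s) (xp s) y := by
        intro y
        rcases h (n + y + 1) (by omega) with ⟨-, h2⟩ | ⟨h2, -⟩
        · exact h2 y (List.mem_range.mpr (by omega))
        · exact (h2 h0).elim
      rw [V_eq_zero h1, h0]
    · rcases h (n + 1) (by omega) with ⟨h2, -⟩ | ⟨-, h2, h3⟩
      · exact (h0 h2).elim
      · exact (V_eq h2 fun y hy => h3 y (List.mem_range.mpr hy)).symm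
  · intro h N _
    by_cases h0 : vp s = 0
    · refine Or.inl ⟨h0, fun y _ hy => ?_⟩
      have h1 := V_spec hy
      rw [← h, h0] at h1
      exact not_R_zero _ _ h1
    · refine Or.inr ⟨h0, ?_, ?_⟩
      · rw [h]
        by_contra hno
        apply h0
        rw [h]
        apply V_eq_zero
        intro y hy
        exact hno (V_spec hy)
      · intro y hy
        rw [List.mem_range, h] at hy
        exact V_min hy

/-- the tree -/
def ztree : Set (List ℕ) :=
  {s | (∀ n ∈ List.range (s.length - 1),
      lf s (n + 1) = step n (lf s n) (vp (lf s (n + 1)))) ∧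
    (s.length = 0 ∨ lf s 0 = mk 0 0 (vp (lf s 0))) ∧
    ∀ n ∈ List.range s.length, Good (lf s n) s.length}

theorem ztree_pre {s t : List ℕ} (h : s <+: t) (ht : t ∈ ztree) : s ∈ ztree := by
  have hl : s.length ≤ t.length := h.length_le
  have e := lf_pre h
  obtain ⟨h1, h2, h3⟩ := ht
  refine ⟨fun n hn => ?_, ?_, fun n hn => ?_⟩
  · rw [List.mem_range] at hn
    rw [e n (by omega), e (n + 1) (by omega)]
    exact h1 n (List.mem_range.mpr (by omega))
  · rcases Nat.eq_zero_or_pos s.length with h0 | h0
    · exact Or.inl h0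
    · right
      rw [e 0 h0]
      rcases h2 with h2 | h2
      · omega
      · exact h2
  · rw [List.mem_range] at hn
    rw [e n hn]
    exact good_mono hl (h3 n (List.mem_range.mpr (by omega)))

theorem ztree_branches (f : ℕ → ℕ) : (∀ n : ℕ, (List.range n).map f ∈ ztree) ↔ f = zz := by
  have hlen : ∀ N : ℕ, ((List.range N).map f).length = N := by
    intro N
    rw [List.length_map, List.length_range]
  have e := lf_range f
  constructor
  · intro H
    have hV : ∀ n, vp (f n) = V (ip (f n)) (xp (f n)) := by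
      intro n
      rw [← good_iff (f n) n]
      intro N hN
      have := (H N).2.2 n (by rw [hlen, List.mem_range]; exact hN)
      rw [hlen, e N n hN] at this
      exact this
    have hS : ∀ n, f (n + 1) = step n (f n) (vp (f (n + 1))) := by
      intro n
      have := (H (n + 2)).1 n (by rw [hlen, List.mem_range]; omega)
      rw [e (n + 2) n (by omega), e (n + 2) (n + 1) (by omega)] at this
      exact this
    have h0 : f 0 = mk 0 0 (vp (f 0)) := by
      rcases (H 1).2.1 with h | h
      · rw [hlen] at h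
        omega
      · rw [e 1 0 (by omega)] at h
        exact h
    funext n
    induction n with
    | zero =>
      have h1 := hV 0
      have h2 : ip (f 0) = 0 := by rw [h0, ip_mk]
      have h3 : xp (f 0) = 0 := by rw [h0, xp_mk]
      rw [h2, h3] at h1
      rw [h1] at h0
      rw [h0, zz]
    | succ n ih =>
      have h1 := hS n
      have h4 := zz_succ n
      by_cases hc : n + 1 ≤ xp (f n) + vp (f n)
      · have h2 : f (n + 1) = f n := by
          rw [h1]; unfold step; rw [if_pos hc]
        rw [ih] at hc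
        have h5 : zz (n + 1) = zz n := by
          rw [h4]; unfold step; rw [if_pos hc]
        rw [h2, h5, ih]
      · have h2 : f (n + 1) = mk (ip (f n) + 1) (n + 1) (vp (f (n + 1))) := by
          conv_lhs => rw [h1]
          unfold step; rw [if_neg hc]
        have h3 := hV (n + 1)
        have h6 : ip (f (n + 1)) = ip (f n) + 1 := by rw [h2, ip_mk]
        have h7 : xp (f (n + 1)) = n + 1 := by rw [h2, xp_mk]
        rw [h6, h7] at h3
        rw [h3] at h2
        rw [ih] at hc h2
        rw [h2, zz]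
        unfold step
        rw [if_neg hc]
  · rintro rfl N
    refine ⟨fun n hn => ?_, ?_, fun n hn => ?_⟩
    · rw [hlen, List.mem_range] at hn
      rw [e N n (by omega), e N (n + 1) (by omega)]
      exact zz_succ n
    · rcases Nat.eq_zero_or_pos N with h0 | h0
      · exact Or.inl (by rw [hlen]; exact h0)
      · right
        rw [e N 0 h0, zz, vp_mk]
    · rw [hlen, List.mem_range] at hn
      rw [hlen, e N n hn]
      exact (good_iff (zz n) n).mpr (zz_inv n) N hn

/-! ### Computability -/

variable {α : Type*} [Primcodable α]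

theorem R_prim {i x y : α → ℕ} (hi : Primrec i) (hx : Primrec x) (hy : Primrec y) :
    PrimrecPred fun a => R (i a) (x a) (y a) := by
  have h1 : Primrec fun a => Denumerable.ofNat Code (i a).unpair.2.unpair.1 :=
    (Primrec.ofNat Code).comp (up1 (up2 hi))
  have h2 : Primrec fun a => Code.evaln (y a) (Denumerable.ofNat Code (i a).unpair.2.unpair.1)
      (x a) := Code.primrec_evaln.comp (Primrec.pair (Primrec.pair hy h1) hx)
  have h3 : Primrec fun a => x a + y a := Primrec.nat_add.comp hx hy
  exact Primrec.nat_le.comp (Primrec.option_getD.comp h2 (Primrec.succ.comp h3)) h3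

theorem ip_prim {s : α → ℕ} (hs : Primrec s) : Primrec fun a => ip (s a) := up1 (up2 hs)

theorem xp_prim {s : α → ℕ} (hs : Primrec s) : Primrec fun a => xp (s a) := up1 (up2 (up2 hs))

theorem vp_prim {s : α → ℕ} (hs : Primrec s) : Primrec fun a => vp (s a) := up2 (up2 (up2 hs))

theorem mk_prim {i x v : α → ℕ} (hi : Primrec i) (hx : Primrec x) (hv : Primrec v) :
    Primrec fun a => mk (i a) (x a) (v a) :=
  Primrec₂.natPair.comp (up1 hi) (Primrec₂.natPair.comp hi (Primrec₂.natPair.comp hx hv))

theorem step_prim {n s v : α → ℕ} (hn : Primrec n) (hs : Primrec s) (hv : Primrec v) :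
    Primrec fun a => step (n a) (s a) (v a) :=
  Primrec.ite (Primrec.nat_le.comp (Primrec.succ.comp hn)
    (Primrec.nat_add.comp (xp_prim hs) (vp_prim hs))) hs
    (mk_prim (Primrec.succ.comp (ip_prim hs)) (Primrec.succ.comp hn) hv)

theorem good_prim {s N : α → ℕ} (hs : Primrec s) (hN : Primrec N) :
    PrimrecPred fun a => Good (s a) (N a) := by
  have hr : PrimrecRel fun (y : ℕ) (s : ℕ) => ¬ R (ip s) (xp s) y :=
    (R_prim (ip_prim Primrec.snd) (xp_prim Primrec.snd) Primrec.fst).not
  have h1 : PrimrecPred fun a => ∀ y ∈ List.range (N a), ¬ R (ip (s a)) (xp (s a)) y :=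
    hr.forall_mem_list.comp (Primrec.list_range.comp hN) hs
  have h2 : PrimrecPred fun a => ∀ y ∈ List.range (vp (s a)), ¬ R (ip (s a)) (xp (s a)) y :=
    hr.forall_mem_list.comp (Primrec.list_range.comp (vp_prim hs)) hs
  have h3 : PrimrecPred fun a => vp (s a) = 0 := Primrec.eq.comp (vp_prim hs) (Primrec.const 0)
  exact (h3.and h1).or (h3.not.and ((R_prim (ip_prim hs) (xp_prim hs) (vp_prim hs)).and h2))

theorem ztree_computable : ComputablePred fun s : List ℕ => s ∈ ztree := by
  have hlen : Primrec fun s : List ℕ => s.length := Primrec.list_length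
  have hR1 : PrimrecRel fun (n : ℕ) (s : List ℕ) =>
      lf s (n + 1) = step n (lf s n) (vp (lf s (n + 1))) := by
    have e1 : Primrec fun x : ℕ × List ℕ => lf x.2 (x.1 + 1) :=
      lf_prim.comp Primrec.snd (Primrec.succ.comp Primrec.fst)
    have e0 : Primrec fun x : ℕ × List ℕ => lf x.2 x.1 := lf_prim.comp Primrec.snd Primrec.fst
    exact Primrec.eq.comp e1 (step_prim Primrec.fst e0 (vp_prim e1))
  have h1 : PrimrecPred fun s : List ℕ => ∀ n ∈ List.range (s.length - 1),
      lf s (n + 1) = step n (lf s n) (vp (lf s (n + 1))) :=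
    hR1.forall_mem_list.comp
      (Primrec.list_range.comp (Primrec.nat_sub.comp hlen (Primrec.const 1))) Primrec.id
  have e0 : Primrec fun s : List ℕ => lf s 0 := lf_prim.comp Primrec.id (Primrec.const 0)
  have h2 : PrimrecPred fun s : List ℕ => s.length = 0 ∨ lf s 0 = mk 0 0 (vp (lf s 0)) :=
    (Primrec.eq.comp hlen (Primrec.const 0)).or
      (Primrec.eq.comp e0 (mk_prim (Primrec.const 0) (Primrec.const 0) (vp_prim e0)))
  have hR3 : PrimrecRel fun (n : ℕ) (s : List ℕ) => Good (lf s n) s.length :=
    good_prim (lf_prim.comp Primrec.snd Primrec.fst) (hlen.comp Primrec.snd)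
  have h3 : PrimrecPred fun s : List ℕ => ∀ n ∈ List.range s.length, Good (lf s n) s.length :=
    hR3.forall_mem_list.comp (Primrec.list_range.comp hlen) Primrec.id
  exact (h1.and (h2.and h3)).computablePred

theorem zz_pi01 : Pi01 {zz} := by
  refine ⟨ztree, ztree_computable, fun s t => ztree_pre, ?_⟩
  ext f
  show f ∈ ({zz} : Set (ℕ → ℕ)) ↔ ∀ n : ℕ, (List.range n).map f ∈ ztree
  rw [ztree_branches, Set.mem_singleton_iff]

/-! ### The values on sets which are not hyperimmune -/

theorem zz_block {i x : ℕ} (h : zz x = mk i x (V i x)) :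
    ∀ d ≤ V i x, zz (x + d) = mk i x (V i x) := by
  intro d
  induction d with
  | zero => intro _; exact h
  | succ d ih =>
    intro hd
    have h1 := ih (by omega)
    rw [← add_assoc, zz, h1]
    unfold step
    rw [if_pos]
    rw [xp_mk, vp_mk]
    omega

theorem zz_blocks (i : ℕ) : ∃ x, i ≤ x ∧ zz x = mk i x (V i x) := by
  induction i with
  | zero => exact ⟨0, le_rfl, by rw [zz]⟩
  | succ i ih =>
    obtain ⟨x, hx, h⟩ := ih
    refine ⟨x + V i x + 1, by omega, ?_⟩
    have h1 := zz_block h (V i x) le_rfl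
    rw [zz, h1]
    unfold step
    rw [if_neg, ip_mk]
    rw [xp_mk, vp_mk]
    omega

/-- The set `A` is infinite and not hyperimmune: there is a computable function `f` such that `A`
meets the interval `[x, f x]` for every `x`. -/
def NotHyperimmune (A : Set ℕ) : Prop :=
  ∃ f : ℕ → ℕ, Computable f ∧ ∀ x, ∃ n ∈ A, x ≤ n ∧ n ≤ f x

theorem zz_values {A : Set ℕ} (hA : NotHyperimmune A) (m : ℕ) :
    {n ∈ A | (zz n).unpair.1 = m}.Infinite := by
  obtain ⟨f, hf, hfA⟩ := hA
  obtain ⟨c, hc⟩ := Code.exists_code.1 (Partrec.nat_iff.1 hf.partrec)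
  apply Set.infinite_of_forall_exists_gt
  intro j
  set i := Nat.pair m (Nat.pair (Encodable.encode c) (j + 1)) with hi
  have hij : j + 1 ≤ i := (Nat.right_le_pair _ _).trans (Nat.right_le_pair _ _)
  obtain ⟨x, hix, hx⟩ := zz_blocks i
  obtain ⟨n, hnA, hxn, hnf⟩ := hfA x
  have hcode : Denumerable.ofNat Code i.unpair.2.unpair.1 = c := by
    rw [hi]
    simp
  have hmem : f x ∈ Code.eval c x := by
    rw [hc]
    exact Part.mem_some _
  obtain ⟨k, hk⟩ := Code.evaln_complete.1 hmem
  have hR : R i x (max k (f x)) := by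
    unfold R
    rw [hcode]
    have h1 := Code.evaln_mono (le_max_left k (f x)) hk
    rw [Option.mem_def.mp h1, Option.getD_some]
    have := le_max_right k (f x)
    omega
  have hV := V_spec hR
  have hle : f x ≤ x + V i x := by
    unfold R at hV
    rw [hcode] at hV
    rcases he : Code.evaln (V i x) c x with _ | v
    · rw [he, Option.getD_none] at hV
      omega
    · rw [he, Option.getD_some] at hV
      have h2 : v ∈ Code.eval c x := Code.evaln_sound (Option.mem_def.mpr he)
      rw [Part.mem_unique hmem h2]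
      exact hV
  refine ⟨n, ⟨hnA, ?_⟩, by omega⟩
  obtain ⟨d, rfl⟩ := Nat.exists_eq_add_of_le hxn
  rw [zz_block hx d (by omega)]
  simp [mk, hi]

end Pool.Agent.MED
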