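import Pool.Agent.MED.Prim

/-!
The family is the set of the branches of a computable tree.
-/

open Set

namespace Pool.Agent.MED

/-- **Lightface `Π⁰₁` sets**: the sets of the branches of the computable trees of finite sequences
of natural numbers. -/
def Pi01 (A : Set (ℕ → ℕ)) : Prop :=
  ∃ T : Set (List ℕ), ComputablePred (fun s : List ℕ => s ∈ T) ∧
    (∀ s t : List ℕ, s <+: t → t ∈ T → s ∈ T) ∧
    A = {f | ∀ n : ℕ, (List.range n).map f ∈ T}

/-! ### Locality -/

theorem cnt_le (h q : ℕ → ℕ) (n : ℕ) : cnt h q n ≤ n := by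
  induction n with
  | zero => exact le_rfl
  | succ n ih =>
    rw [cnt]
    split_ifs <;> omega

theorem cnt_congr {h h' q q' : ℕ → ℕ} {n : ℕ} (e : ∀ i < n, h i = h' i) (e' : ∀ i < n, q i = q' i) :
    cnt h q n = cnt h' q' n := by
  induction n with
  | zero => rfl
  | succ n ih =>
    have h1 := ih (fun i hi => e i (by omega)) (fun i hi => e' i (by omega))
    have h2 : hist 0 h (cnt h' q' n) = hist 0 h' (cnt h' q' n) := by
      apply hist_congr
      intro i hi
      have := cnt_le h' q' n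
      exact e i (by omega)
    rw [cnt, cnt, h1, e n (by omega), e' n (by omega), h2]

theorem inY_congr {h h' q q' : ℕ → ℕ} {n : ℕ} (e : ∀ i ≤ n, h i = h' i)
    (e' : ∀ i ≤ n, q i = q' i) : inY h q n ↔ inY h' q' n := by
  have h1 : cnt h q n = cnt h' q' n := cnt_congr (fun i hi => e i hi.le) (fun i hi => e' i hi.le)
  have h2 : hist 0 h (cnt h' q' n) = hist 0 h' (cnt h' q' n) := by
    apply hist_congr
    intro i hi
    have := cnt_le h' q' n
    exact e i (by omega)
  unfold inY
  rw [h1, e n le_rfl, e' n le_rfl, h2]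

theorem coh_congr {h h' q q' : ℕ → ℕ} {j n : ℕ} (hjn : j ≤ n) (e : ∀ i ≤ n, h i = h' i)
    (e' : ∀ i ≤ n, q i = q' i) : coh h q j n ↔ coh h' q' j n := by
  have h1 : hist 0 q (j + 1) = hist 0 q' (j + 1) := hist_congr fun i hi => e' i (by omega)
  have h2 : hist 0 q (n + 1) = hist 0 q' (n + 1) := hist_congr fun i hi => e' i (by omega)
  unfold coh
  rw [h1, h2, e n le_rfl, e j hjn]

theorem lev_congr {h h' q q' : ℕ → ℕ} {n : ℕ} (e : ∀ i ≤ n, h i = h' i)
    (e' : ∀ i ≤ n, q i = q' i) : lev h q n = lev h' q' n := by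
  unfold lev
  congr 1
  apply List.filter_congr
  intro j hj
  have hjn : j < n := List.mem_range.mp hj
  rw [decide_eq_decide, inY_congr (fun i hi => e i (by omega)) (fun i hi => e' i (by omega)),
    coh_congr hjn.le e e']

theorem inX_congr {r : ℕ} {h h' q q' : ℕ → ℕ} {n : ℕ} (e : ∀ i ≤ n, h i = h' i)
    (e' : ∀ i ≤ n, q i = q' i) : inX r h q n ↔ inX r h' q' n := by
  unfold inX
  rw [inY_congr e e', lev_congr e e']

theorem ee_congr {b : ℕ} {h h' q q' : ℕ → ℕ} {n : ℕ} (e : ∀ i ≤ n, h i = h' i)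
    (e' : ∀ i ≤ n, q i = q' i) : ee b h q n = ee b h' q' n := by
  unfold ee
  rw [hist_congr (fun i hi => e i (Nat.lt_succ_iff.mp hi)),
    hist_congr (fun i hi => e' i (Nat.lt_succ_iff.mp hi))]

theorem G_congr {b : ℕ} {h h' q q' : ℕ → ℕ} {n : ℕ} (e : ∀ i ≤ n, h i = h' i)
    (e' : ∀ i ≤ n, q i = q' i) : G b h q n = G b h' q' n := by
  unfold G
  by_cases hX : inX b.unpair.2 h q n
  · rw [if_pos hX, if_pos ((inX_congr e e').mp hX), e n le_rfl, ee_congr e e']
  · rw [if_neg hX, if_neg (fun hc => hX ((inX_congr e e').mpr hc)), ee_congr e e']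

/-! ### Decoding -/

/-- the base of the code -/
def bas (y : ℕ → ℕ) : ℕ := (y 0).unpair.1.unpair.1

/-- a place which is used to decode the value at `i` -/
def pp (b i : ℕ) : ℕ := if i % 2 = b.unpair.2 % 2 then i + 1 else i

/-- the first function coded by `y` -/
def hd (y : ℕ → ℕ) (i : ℕ) : ℕ := (tr (y (pp (bas y) i)).unpair.1 (pp (bas y) i - i)).unpair.2

/-- the second function coded by `y` -/
def qd (y : ℕ → ℕ) (i : ℕ) : ℕ := (tr (y (pp (bas y) i)).unpair.2 (pp (bas y) i - i)).unpair.2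

theorem le_pp (b i : ℕ) : i ≤ pp b i ∧ pp b i ≤ i + 1 := by
  unfold pp
  split_ifs <;> omega

theorem pp_mod (b i : ℕ) : pp b i % 2 ≠ b.unpair.2 % 2 := by
  unfold pp
  split_ifs with h
  · omega
  · exact h

theorem G_zero (b : ℕ) (h q : ℕ → ℕ) : G b h q 0 = ee b h q 0 := by
  unfold G
  rw [if_neg]
  exact fun hc => lt_irrefl 0 hc.1

theorem G_off {b : ℕ} {h q : ℕ → ℕ} {n : ℕ} (hn : n % 2 ≠ b.unpair.2 % 2) :
    G b h q n = ee b h q n := by
  unfold G
  rw [if_neg]
  exact fun hc => hn hc.2.2.1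

theorem bas_G (b : ℕ) (h q : ℕ → ℕ) : bas (G b h q) = b := by
  unfold bas
  rw [G_zero]
  unfold ee
  rw [Nat.unpair_pair]
  simp only [hist, Nat.unpair_pair]

theorem hist_val (b : ℕ) (f : ℕ → ℕ) {i p : ℕ} (h : i ≤ p) :
    (tr (hist b f (p + 1)) (p - i)).unpair.2 = f i := by
  have e : p - i = (p + 1) - (i + 1) := by omega
  rw [e, tr_hist' b f (by omega), hist, Nat.unpair_pair]

theorem hd_G (b : ℕ) (h q : ℕ → ℕ) : hd (G b h q) = h := by
  funext i
  unfold hd
  rw [bas_G, G_off (pp_mod b i)]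
  unfold ee
  rw [Nat.unpair_pair]
  exact hist_val b h (le_pp b i).1

theorem qd_G (b : ℕ) (h q : ℕ → ℕ) : qd (G b h q) = q := by
  funext i
  unfold qd
  rw [bas_G, G_off (pp_mod b i)]
  unfold ee
  rw [Nat.unpair_pair]
  exact hist_val 0 q (le_pp b i).1

theorem mem_fam_iff (q y : ℕ → ℕ) :
    y ∈ fam q ↔ (∀ n, y n = G (bas y) (hd y) (qd y) n) ∧ qd y = q := by
  constructor
  · rintro ⟨b, h, rfl⟩
    refine ⟨fun n => ?_, qd_G b h q⟩
    rw [bas_G, hd_G, qd_G]
  · rintro ⟨h1, h2⟩
    refine ⟨bas y, hd y, ?_⟩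
    rw [← h2]
    funext n
    exact h1 n

theorem bas_congr {y y' : ℕ → ℕ} {N : ℕ} (e : ∀ n < N, y n = y' n) (hN : 0 < N) :
    bas y = bas y' := by
  unfold bas
  rw [e 0 hN]

theorem hd_congr {y y' : ℕ → ℕ} {N : ℕ} (e : ∀ n < N, y n = y' n) {i : ℕ} (hi : i + 1 < N) :
    hd y i = hd y' i := by
  unfold hd
  have := (le_pp (bas y') i).2
  rw [bas_congr e (by omega), e _ (by omega)]

theorem qd_congr {y y' : ℕ → ℕ} {N : ℕ} (e : ∀ n < N, y n = y' n) {i : ℕ} (hi : i + 1 < N) :
    qd y i = qd y' i := by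
  unfold qd
  have := (le_pp (bas y') i).2
  rw [bas_congr e (by omega), e _ (by omega)]

theorem GG_congr {y y' : ℕ → ℕ} {N : ℕ} (e : ∀ n < N, y n = y' n) {n : ℕ} (hn : n + 1 < N) :
    G (bas y) (hd y) (qd y) n = G (bas y') (hd y') (qd y') n := by
  rw [bas_congr e (by omega)]
  exact G_congr (fun i hi => hd_congr e (by omega)) (fun i hi => qd_congr e (by omega))

/-! ### The tree -/

/-- the function given by a list -/
def lf (s : List ℕ) (n : ℕ) : ℕ := s.getD n 0

theorem lf_range (y : ℕ → ℕ) (N : ℕ) : ∀ n < N, lf ((List.range N).map y) n = y n := by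
  intro n hn
  unfold lf
  rw [List.getD_eq_getElem _ _ (by simpa using hn)]
  simp

theorem lf_pre {s t : List ℕ} (h : s <+: t) : ∀ n < s.length, lf s n = lf t n := by
  intro n hn
  obtain ⟨u, rfl⟩ := h
  unfold lf
  rw [List.getD_append _ _ _ _ hn]

/-- the tree of the family, for a tree `S` whose only branch is `q` -/
def tree (S : Set (List ℕ)) : Set (List ℕ) :=
  {s | (∀ n ∈ List.range (s.length - 1), lf s n = G (bas (lf s)) (hd (lf s)) (qd (lf s)) n) ∧
    (List.range (s.length - 1)).map (qd (lf s)) ∈ S}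

theorem tree_pre {S : Set (List ℕ)} (hS : ∀ s t : List ℕ, s <+: t → t ∈ S → s ∈ S)
    {s t : List ℕ} (h : s <+: t) (ht : t ∈ tree S) : s ∈ tree S := by
  have hl : s.length ≤ t.length := h.length_le
  have e := lf_pre h
  obtain ⟨h1, h2⟩ := ht
  refine ⟨fun n hn => ?_, ?_⟩
  · rw [List.mem_range] at hn
    rw [e n (by omega), GG_congr e (by omega)]
    exact h1 n (List.mem_range.mpr (by omega))
  · have e2 : (List.range (s.length - 1)).map (qd (lf s)) =
        (List.range (s.length - 1)).map (qd (lf t)) := by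
      apply List.map_congr_left
      intro i hi
      rw [List.mem_range] at hi
      exact qd_congr e (by omega)
    rw [e2]
    refine hS _ _ ?_ h2
    apply List.IsPrefix.map
    obtain ⟨d, hd⟩ := Nat.exists_eq_add_of_le (show s.length - 1 ≤ t.length - 1 by omega)
    rw [hd, List.range_add]
    exact ⟨_, rfl⟩

theorem tree_branches (S : Set (List ℕ)) (y : ℕ → ℕ) :
    (∀ n : ℕ, (List.range n).map y ∈ tree S) ↔
      (∀ n, y n = G (bas y) (hd y) (qd y) n) ∧ ∀ n, (List.range n).map (qd y) ∈ S := by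
  have hmap : ∀ N : ℕ, (List.range (((List.range N).map y).length - 1)).map
      (qd (lf ((List.range N).map y))) = (List.range (N - 1)).map (qd y) := by
    intro N
    rw [List.length_map, List.length_range]
    apply List.map_congr_left
    intro i hi
    rw [List.mem_range] at hi
    exact qd_congr (lf_range y N) (by omega)
  constructor
  · intro H
    refine ⟨fun n => ?_, fun n => ?_⟩
    · have h1 := (H (n + 2)).1 n (by
        rw [List.length_map, List.length_range, List.mem_range]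
        omega)
      rw [lf_range y (n + 2) n (by omega), GG_congr (lf_range y (n + 2)) (by omega)] at h1
      exact h1
    · have h1 := (H (n + 1)).2
      rw [hmap] at h1
      exact h1
  · rintro ⟨H1, H2⟩ N
    refine ⟨fun n hn => ?_, ?_⟩
    · rw [List.length_map, List.length_range, List.mem_range] at hn
      rw [lf_range y N n (by omega), GG_congr (lf_range y N) (by omega)]
      exact H1 n
    · rw [hmap]
      exact H2 _

/-! ### Computability -/

theorem computable_and {α : Type*} [Primcodable α] {p q : α → Prop} (hp : ComputablePred p)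
    (hq : ComputablePred q) : ComputablePred fun a => p a ∧ q a := by
  obtain ⟨d1, c1⟩ := hp
  obtain ⟨d2, c2⟩ := hq
  refine ⟨fun a => inferInstance, ?_⟩
  refine (Primrec.and.to_comp.comp c1 c2).of_eq ?_
  intro a
  simp

theorem computable_comp {α β : Type*} [Primcodable α] [Primcodable β] {p : β → Prop}
    (hp : ComputablePred p) {f : α → β} (hf : Computable f) : ComputablePred fun a => p (f a) := by
  obtain ⟨d, c⟩ := hp
  exact ⟨fun a => inferInstance, c.comp hf⟩

theorem lf_prim : Primrec₂ lf := Primrec.list_getD 0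

theorem bas_prim : Primrec fun s : List ℕ => bas (lf s) :=
  up1 (up1 (lf_prim.comp Primrec.id (Primrec.const 0)))

theorem pp_prim : Primrec₂ pp := by
  have h2 : Primrec fun x : ℕ × ℕ => x.1.unpair.2 := up2 Primrec.fst
  exact Primrec.ite (Primrec.eq.comp (Primrec.nat_mod.comp Primrec.snd (Primrec.const 2))
    (Primrec.nat_mod.comp h2 (Primrec.const 2))) (Primrec.succ.comp Primrec.snd) Primrec.snd

theorem ppl_prim : Primrec fun x : List ℕ × ℕ => pp (bas (lf x.1)) x.2 :=
  pp_prim.comp (bas_prim.comp Primrec.fst) Primrec.snd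

theorem hd_prim : Primrec₂ fun (s : List ℕ) (i : ℕ) => hd (lf s) i := by
  have h1 : Primrec fun x : List ℕ × ℕ => lf x.1 (pp (bas (lf x.1)) x.2) :=
    lf_prim.comp Primrec.fst ppl_prim
  exact up2 (tr_prim.comp (up1 h1) (Primrec.nat_sub.comp ppl_prim Primrec.snd))

theorem qd_prim : Primrec₂ fun (s : List ℕ) (i : ℕ) => qd (lf s) i := by
  have h1 : Primrec fun x : List ℕ × ℕ => lf x.1 (pp (bas (lf x.1)) x.2) :=
    lf_prim.comp Primrec.fst ppl_prim
  exact up2 (tr_prim.comp (up2 h1) (Primrec.nat_sub.comp ppl_prim Primrec.snd))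

theorem tree_computable {S : Set (List ℕ)} (hS : ComputablePred fun s : List ℕ => s ∈ S) :
    ComputablePred fun s : List ℕ => s ∈ tree S := by
  have hlen : Primrec fun s : List ℕ => List.range (s.length - 1) :=
    Primrec.list_range.comp (Primrec.nat_sub.comp Primrec.list_length (Primrec.const 1))
  have hR : PrimrecRel fun (n : ℕ) (s : List ℕ) =>
      lf s n = G (bas (lf s)) (hd (lf s)) (qd (lf s)) n :=
    Primrec.eq.comp (lf_prim.comp Primrec.snd Primrec.fst)
      ((G_prim bas_prim hd_prim qd_prim).comp Primrec.snd Primrec.fst)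
  have h1 : PrimrecPred fun s : List ℕ => ∀ n ∈ List.range (s.length - 1),
      lf s n = G (bas (lf s)) (hd (lf s)) (qd (lf s)) n :=
    hR.forall_mem_list.comp hlen Primrec.id
  have h2 : Primrec fun s : List ℕ => (List.range (s.length - 1)).map (qd (lf s)) :=
    Primrec.list_map hlen qd_prim
  exact computable_and h1.computablePred (computable_comp hS h2.to_comp)

/-- the family of a function `q` such that `{q}` is a lightface `Π⁰₁` set is lightface `Π⁰₁` -/
theorem fam_pi01 {q : ℕ → ℕ} (hq : Pi01 {q}) : Pi01 (fam q) := by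
  obtain ⟨S, hS1, hS2, hS3⟩ := hq
  refine ⟨tree S, tree_computable hS1, fun s t => tree_pre hS2, ?_⟩
  ext y
  rw [mem_fam_iff]
  show _ ↔ ∀ n : ℕ, (List.range n).map y ∈ tree S
  rw [tree_branches]
  have h1 : (∀ n, (List.range n).map (qd y) ∈ S) ↔ qd y = q := by
    have h2 : qd y ∈ ({q} : Set (ℕ → ℕ)) ↔ ∀ n : ℕ, (List.range n).map (qd y) ∈ S := by
      rw [hS3]
      rfl
    rw [← h2]
    exact Set.mem_singleton_iff
  rw [h1]

end Pool.Agent.MED
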